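import Pool.Agent.TH377.Hyp.NF
import Mathlib.NumberTheory.NumberField.Completion.FinitePlace

/-!
# Hypersurfaces without points over a completion of an extension
-/

set_option autoImplicit false
set_option maxHeartbeats 400000
set_option linter.unusedSectionVars false

namespace Pool.Agent.TH377.HB

open Polynomial NumberField IsDedekindDomain Pool.Agent.TH377.Dyn

universe u v

/-- the numerical condition -/
def SmallE (k d n : ℕ) : Prop :=
  k * n ≤ d ∨ ∃ l : ℕ, l.Prime ∧ k * l ^ padicValNat l n ≤ l ^ padicValNat l d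

variable {K : Type u} {L : Type v} [Field K] [NumberField K] [Field L] [NumberField L]
  [Algebra K L]

/-- a good place -/
theorem exists_good_place' (v : HeightOneSpectrum (𝓞 K)) (k d : ℕ) (hk : 2 ≤ k)
    (h : SmallE k d (Module.finrank K L)) :
    ∃ q : v.asIdeal.primesOver (𝓞 L), ¬ d ∣ q.1.inertiaDeg (𝓞 K) ∧
      ∀ i, 0 < i → i < k → ¬ d ∣ i * q.1.ramificationIdx (𝓞 K) := by
  rcases h with h | h
  · set n := Module.finrank K L with hn
    have hn0 : 0 < n := Module.finrank_pos
    have hsum := sum_ef L v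
    rw [← hn] at hsum
    obtain ⟨q, hq⟩ : ∃ q : v.asIdeal.primesOver (𝓞 L),
        q.1.ramificationIdx (𝓞 K) * q.1.inertiaDeg (𝓞 K) ≠ 0 := by
      by_contra h1
      push Not at h1
      rw [Finset.sum_eq_zero fun q _ => h1 q] at hsum
      omega
    have hle : q.1.ramificationIdx (𝓞 K) * q.1.inertiaDeg (𝓞 K) ≤ n := by
      rw [← hsum]
      exact Finset.single_le_sum
        (f := fun q : v.asIdeal.primesOver (𝓞 L) =>
          q.1.ramificationIdx (𝓞 K) * q.1.inertiaDeg (𝓞 K))
        (fun _ _ => Nat.zero_le _) (Finset.mem_univ q)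
    set e := q.1.ramificationIdx (𝓞 K) with he
    set f := q.1.inertiaDeg (𝓞 K) with hf
    have he0 : 0 < e := Nat.pos_of_ne_zero fun h0 => hq (by rw [h0, zero_mul])
    have hf0 : 0 < f := Nat.pos_of_ne_zero fun h0 => hq (by rw [h0, mul_zero])
    have hen : e ≤ n := (Nat.le_mul_of_pos_right e hf0).trans hle
    have hfn : f ≤ n := (Nat.le_mul_of_pos_left f he0).trans hle
    refine ⟨q, ?_, ?_⟩
    · intro h1
      have h2 := Nat.le_of_dvd hf0 h1
      nlinarith
    · intro i hi hik h1
      have h2 := Nat.le_of_dvd (Nat.mul_pos hi he0) h1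
      have h3 : i * e < k * n := by
        calc i * e < k * e := Nat.mul_lt_mul_of_pos_right hik he0
          _ ≤ k * n := Nat.mul_le_mul_left _ hen
      omega
  · exact Pool.Agent.TH377.Hyp.exists_good_place v k d hk h

section comp

variable (w : HeightOneSpectrum (𝓞 L))

lemma pow_sub_le {M : Type*} [Field M] {Γ : Type*} [LinearOrderedCommGroupWithZero Γ]
    (V : Valuation M Γ) (x y : M) (hx : V x ≤ 1) (hy : V y ≤ 1) (i : ℕ) :
    V (x ^ i - y ^ i) ≤ V (x - y) := by
  induction i with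
  | zero => simp
  | succ i ih =>
    have h1 : x ^ (i + 1) - y ^ (i + 1) = x * (x ^ i - y ^ i) + (x - y) * y ^ i := by ring
    rw [h1]
    refine (Valuation.map_add V _ _).trans (max_le ?_ ?_)
    · rw [map_mul]
      calc V x * V (x ^ i - y ^ i) ≤ 1 * V (x - y) := mul_le_mul' hx ih
        _ = _ := one_mul _
    · rw [map_mul, map_pow]
      calc V (x - y) * V y ^ i ≤ V (x - y) * 1 :=
            mul_le_mul_right (pow_le_one₀ zero_le hy) _
        _ = _ := mul_one _

/-- polynomials without roots over the residue field -/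
theorem comp_no_root (F : L[X]) (hF : ∀ i, w.valuation L (F.coeff i) ≤ 1)
    (hroot : ∀ y : L, w.valuation L y ≤ 1 → 1 ≤ w.valuation L (F.eval y))
    (y : w.adicCompletion L) (hy : Valued.v y ≤ 1) :
    1 ≤ Valued.v ((F.map (algebraMap L (w.adicCompletion L))).eval y) := by
  obtain ⟨x, hx⟩ : ∃ x : L, Valued.v (algebraMap L (w.adicCompletion L) x - y) < 1 := by
    have hn : {z | Valued.v (z - y) < 1} ∈ nhds y := by
      rw [Valued.mem_nhds]
      exact ⟨1, fun z hz => by simpa using hz⟩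
    obtain ⟨x, hx⟩ := (HeightOneSpectrum.denseRange_algebraMap (K := L) w).mem_nhds hn
    exact ⟨x, hx⟩
  have hval : ∀ z : L, Valued.v (algebraMap L (w.adicCompletion L) z) = w.valuation L z :=
    fun z => HeightOneSpectrum.valuedAdicCompletion_eq_valuation' w z
  have hx1 : Valued.v (algebraMap L (w.adicCompletion L) x) ≤ 1 := by
    have h1 := Valuation.map_add Valued.v (algebraMap L (w.adicCompletion L) x - y) y
    rw [sub_add_cancel] at h1
    exact h1.trans (max_le hx.le hy)
  have h2 := hroot x (by rw [← hval]; exact hx1)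
  by_contra hlt
  rw [not_le] at hlt
  have h3 : Valued.v ((F.map (algebraMap L (w.adicCompletion L))).eval
      (algebraMap L (w.adicCompletion L) x) -
      (F.map (algebraMap L (w.adicCompletion L))).eval y) < 1 := by
    rw [eval_eq_sum_range, eval_eq_sum_range, ← Finset.sum_sub_distrib]
    refine Valuation.map_sum_lt _ one_ne_zero fun i _ => ?_
    rw [← mul_sub, map_mul, coeff_map, hval]
    calc w.valuation L (F.coeff i) * Valued.v (algebraMap L (w.adicCompletion L) x ^ i - y ^ i)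
        ≤ 1 * Valued.v (algebraMap L (w.adicCompletion L) x - y) :=
          mul_le_mul' (hF i) (pow_sub_le Valued.v _ _ hx1 hy i)
      _ < 1 := by rw [one_mul]; exact hx
  have h4 := Valuation.map_add Valued.v ((F.map (algebraMap L (w.adicCompletion L))).eval
      (algebraMap L (w.adicCompletion L) x) -
      (F.map (algebraMap L (w.adicCompletion L))).eval y)
      ((F.map (algebraMap L (w.adicCompletion L))).eval y)
  have h5 := h4.trans_lt (max_lt h3 hlt)
  rw [sub_add_cancel, eval_map_algebraMap, aeval_algebraMap_apply, hval, coe_aeval_eq_eval] at h5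
  exact absurd h5 (not_lt.2 h2)

end comp

/-- the abstract form -/
theorem abs_no_point {R : Type*} {M : Type*} {Γ : Type*} [CommRing R] [Field M]
    [LinearOrderedCommGroupWithZero Γ] (V : Valuation M Γ) (φ : R →+* M)
    (hφ : Function.Injective φ) (hle : ∀ a, V (φ a) ≤ 1) (k d : ℕ) (hd : 1 ≤ d)
    (F : Fin k → R[X]) (hFd : ∀ j, (F j).natDegree = d)
    (hlc : ∀ j, V (φ (F j).leadingCoeff) = 1)
    (hroot : ∀ j y, V y ≤ 1 → 1 ≤ V (((F j).map φ).eval y)) (b : R) (hb0 : b ≠ 0)
    (hb : V (φ b) < 1) (hpow : ∀ i, 0 < i → i < k → ∀ t : Γ, V (φ b) ^ i ≠ t ^ d)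
    (G : MvPolynomial (Fin k × Fin 2) R) (hG : G.IsHomogeneous d)
    (hGc : ∀ α, b ^ (Pool.Agent.TH377.Hyp.wt α / d + 1) ∣ G.coeff α)
    (x : Fin k × Fin 2 → M) (hx : x ≠ 0) :
    ∑ j : Fin k, φ b ^ (j : ℕ) * Pool.Agent.TH377.Hyp.bin ((F j).map φ) d
      (x (j, 0)) (x (j, 1)) + MvPolynomial.eval x (MvPolynomial.map φ G) ≠ 0 := by
  refine Pool.Agent.TH377.Hyp.no_zero V k d hd (fun j => (F j).map φ) ?_ ?_ ?_ hroot (φ b) ?_ hb
    hpow _ (hG.map _) ?_ x hx
  · intro j i
    rw [coeff_map]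
    exact hle _
  · intro j
    rw [leadingCoeff_map_of_injective hφ]
    exact hlc j
  · intro j
    rw [natDegree_map_eq_of_injective hφ, hFd]
  · rwa [Ne, map_eq_zero_iff _ hφ]
  · intro α
    obtain ⟨r, hr⟩ := hGc α
    rw [MvPolynomial.coeff_map, hr, map_mul, map_pow, map_mul, map_pow]
    exact mul_le_of_le_one_right zero_le (hle r)

/-- the embedding into the completion -/
noncomputable def emb (K : Type u) [Field K] {L : Type v} [Field L] [NumberField L] [Algebra K L]
    (w : HeightOneSpectrum (𝓞 L)) : 𝓞 K →+* w.adicCompletion L :=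
  (algebraMap L (w.adicCompletion L)).comp (algebraMap (𝓞 K) L)

lemma emb_val' (w : HeightOneSpectrum (𝓞 L)) (a : 𝓞 K) :
    Valued.v (emb K w a) = w.valuation L (algebraMap (𝓞 K) L a) :=
  HeightOneSpectrum.valuedAdicCompletion_eq_valuation' w _

/-- over a given completion -/
theorem comp_point (v : HeightOneSpectrum (𝓞 K)) (k d : ℕ) (hd : 2 ≤ d)
    (b : 𝓞 K) (hb : b ∈ v.asIdeal) (hb2 : b ∉ v.asIdeal ^ 2) (F : Fin k → (𝓞 K)[X])
    (hF : ∀ j, (F j).natDegree = d ∧ (F j).leadingCoeff ∉ v.asIdeal ∧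
      Irreducible ((F j).map (Ideal.Quotient.mk v.asIdeal)))
    (q : v.asIdeal.primesOver (𝓞 L)) (hq1 : ¬ d ∣ q.1.inertiaDeg (𝓞 K))
    (hq2 : ∀ i, 0 < i → i < k → ¬ d ∣ i * q.1.ramificationIdx (𝓞 K))
    (G : MvPolynomial (Fin k × Fin 2) (𝓞 K)) (hG : G.IsHomogeneous d)
    (hGc : ∀ α, b ^ (Pool.Agent.TH377.Hyp.wt α / d + 1) ∣ G.coeff α)
    (x : Fin k × Fin 2 → (ovr v q).adicCompletion L) (hx : x ≠ 0) :
    ∑ j : Fin k, emb K (ovr v q) b ^ (j : ℕ) *
      Pool.Agent.TH377.Hyp.bin ((F j).map (emb K (ovr v q))) d (x (j, 0)) (x (j, 1)) +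
      MvPolynomial.eval x (MvPolynomial.map (emb K (ovr v q)) G) ≠ 0 := by
  have hinjK : Function.Injective (algebraMap (𝓞 K) L) :=
    FaithfulSMul.algebraMap_injective (𝓞 K) L
  refine abs_no_point (Valued.v : Valuation ((ovr v q).adicCompletion L) _) (emb K (ovr v q))
    ?_ ?_ k d (by omega) F (fun j => (hF j).1) ?_ ?_ b ?_ ?_ ?_ G hG hGc x hx
  · exact (algebraMap L ((ovr v q).adicCompletion L)).injective.comp hinjK
  · intro a
    rw [emb_val', IsScalarTower.algebraMap_apply (𝓞 K) (𝓞 L) L]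
    exact (ovr v q).valuation_le_one _
  · intro j
    rw [emb_val']
    exact val_eq_one v q _ (hF j).2.1
  · intro j y hy
    have h1 : (F j).map (emb K (ovr v q)) =
        ((F j).map (algebraMap (𝓞 K) L)).map (algebraMap L ((ovr v q).adicCompletion L)) := by
      rw [Polynomial.map_map]
      rfl
    rw [h1]
    refine comp_no_root (ovr v q) _ (coeff_le v q (F j)) ?_ y hy
    intro z hz
    by_contra h5
    rw [not_le] at h5
    apply hq1
    rw [← (hF j).1]
    exact dvd_inertia v (ovr v q) (F j) (hF j).2.1 (hF j).2.2 z hz h5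
  · rintro rfl
    exact hb2 (zero_mem _)
  · rw [emb_val']
    exact val_lt_one v q b hb
  · intro i hi hik t
    rw [emb_val']
    exact Pool.Agent.TH377.Hyp.pow_ne v q b hb hb2 d (by omega) i (hq2 i hi hik) t

end Pool.Agent.TH377.HB
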