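import Pool.Agent.TH377.HB.Main
import Mathlib.NumberTheory.NumberField.Completion.FinitePlace

/-!
# Completions of number fields
-/

set_option autoImplicit false
set_option maxHeartbeats 400000
set_option linter.unusedSectionVars false

namespace Pool.Agent.TH377.HB

open Polynomial IsDedekindDomain NumberField

universe u

variable {K : Type u} [Field K] [NumberField K] (v : HeightOneSpectrum (𝓞 K))

lemma val_int (a : 𝓞 K) :
    Valued.v ((algebraMap (𝓞 K) (v.adicCompletionIntegers K) a : v.adicCompletion K)) =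
      v.valuation K (algebraMap (𝓞 K) K a) :=
  HeightOneSpectrum.valuedAdicCompletion_eq_valuation' v (algebraMap (𝓞 K) K a)

/-- an element of `v` that is not in `v²` is a uniformiser of the completion -/
lemma irr_comp (b : 𝓞 K) (h1 : b ∈ v.asIdeal) (h2 : b ∉ v.asIdeal ^ 2) :
    Irreducible (algebraMap (𝓞 K) (v.adicCompletionIntegers K) b) := by
  have h3 : v.valuation K (algebraMap (𝓞 K) K b) = WithZero.exp (-1 : ℤ) := by
    have h3 : v.intValuation b ≤ WithZero.exp (-((1 : ℕ) : ℤ)) := by
      rw [v.intValuation_le_pow_iff_mem, pow_one]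
      exact h1
    have h4 : ¬ v.intValuation b ≤ WithZero.exp (-((2 : ℕ) : ℤ)) := by
      rw [v.intValuation_le_pow_iff_mem]
      exact h2
    rw [v.valuation_of_algebraMap]
    have hb : b ≠ 0 := by
      rintro rfl
      exact h2 (zero_mem _)
    rw [v.intValuation_eq_exp_neg_multiplicity hb] at h3 h4 ⊢
    rw [WithZero.exp_le_exp] at h3 h4
    congr 1
    push_cast at h3 h4
    omega
  have hv := val_int v b
  rw [h3] at hv
  refine ⟨?_, ?_⟩
  · intro hu
    have h4 := HeightOneSpectrum.adicCompletionIntegers.isUnit_iff_valued_eq_one.1 hu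
    rw [hv, ← WithZero.exp_zero, WithZero.exp_inj] at h4
    omega
  · intro x y hxy
    by_contra hc
    rw [not_or] at hc
    have hlt : ∀ z : v.adicCompletionIntegers K, ¬ IsUnit z →
        Valued.v (z : v.adicCompletion K) ≤ WithZero.exp (-1 : ℤ) := by
      intro z hz
      rw [HeightOneSpectrum.adicCompletionIntegers.isUnit_iff_valued_eq_one] at hz
      have h5 : Valued.v (z : v.adicCompletion K) ≤ 1 :=
        (HeightOneSpectrum.mem_adicCompletionIntegers _ _ _).1 z.2
      have h6 : Valued.v (z : v.adicCompletion K) < 1 := lt_of_le_of_ne h5 hz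
      by_cases h0 : Valued.v (z : v.adicCompletion K) = 0
      · rw [h0]
        exact zero_le
      · rw [← WithZero.exp_log h0] at h6 ⊢
        rw [← WithZero.exp_zero, WithZero.exp_lt_exp] at h6
        rw [WithZero.exp_le_exp]
        omega
    have h7 := mul_le_mul' (hlt x hc.1) (hlt y hc.2)
    have h8 : Valued.v (x : v.adicCompletion K) * Valued.v (y : v.adicCompletion K) =
        WithZero.exp (-1 : ℤ) := by
      rw [← hv, hxy, ← map_mul]
      rfl
    rw [h8, ← WithZero.exp_add, WithZero.exp_le_exp] at h7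
    omega

/-- the reduction map -/
noncomputable def red : 𝓞 K →+* IsLocalRing.ResidueField (v.adicCompletionIntegers K) :=
  (IsLocalRing.residue _).comp (algebraMap (𝓞 K) (v.adicCompletionIntegers K))

lemma red_eq_zero (a : 𝓞 K) : red v a = 0 ↔ a ∈ v.asIdeal := by
  rw [red, RingHom.comp_apply, IsLocalRing.residue_eq_zero_iff, IsLocalRing.mem_maximalIdeal,
    mem_nonunits_iff, HeightOneSpectrum.adicCompletionIntegers.isUnit_iff_valued_eq_one, val_int,
    HeightOneSpectrum.valuation_eq_one_iff_notMem, not_not]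

lemma red_surjective : Function.Surjective (red v) := by
  intro y
  obtain ⟨z, rfl⟩ := IsLocalRing.residue_surjective y
  -- approximate by an element of `K`
  obtain ⟨x, hx⟩ : ∃ x : K, Valued.v (algebraMap K (v.adicCompletion K) x -
      (z : v.adicCompletion K)) < 1 := by
    have hn : {y | Valued.v (y - (z : v.adicCompletion K)) < 1} ∈
        nhds (z : v.adicCompletion K) := by
      rw [Valued.mem_nhds]
      exact ⟨1, fun y hy => by simpa using hy⟩
    obtain ⟨x, hx⟩ := (HeightOneSpectrum.denseRange_algebraMap (K := K) v).mem_nhds hn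
    exact ⟨x, hx⟩
  have hx' : v.valuation K x ≤ 1 := by
    have h1 := HeightOneSpectrum.valuedAdicCompletion_eq_valuation' v x
    rw [← h1]
    have h2 : (x : v.adicCompletion K) = (algebraMap K (v.adicCompletion K) x - z) + z := by
      rw [sub_add_cancel]
      rfl
    rw [h2]
    exact (Valuation.map_add _ _ _).trans (max_le hx.le
      ((HeightOneSpectrum.mem_adicCompletionIntegers _ _ _).1 z.2))
  obtain ⟨a, ha⟩ := v.exists_valuation_sub_lt_of_integer hx' 1
  refine ⟨a, ?_⟩
  rw [red, RingHom.comp_apply, ← sub_eq_zero, ← map_sub, IsLocalRing.residue_eq_zero_iff,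
    IsLocalRing.mem_maximalIdeal, mem_nonunits_iff,
    HeightOneSpectrum.adicCompletionIntegers.isUnit_iff_valued_eq_one]
  refine ne_of_lt ?_
  have h3 : (((algebraMap (𝓞 K) (v.adicCompletionIntegers K) a - z :
      v.adicCompletionIntegers K)) : v.adicCompletion K) =
      algebraMap K (v.adicCompletion K) (algebraMap (𝓞 K) K a - x) +
        (algebraMap K (v.adicCompletion K) x - z) := by
    rw [map_sub, sub_add_sub_cancel]
    rfl
  rw [h3]
  refine (Valuation.map_add _ _ _).trans_lt (max_lt ?_ hx)
  have h4 := HeightOneSpectrum.valuedAdicCompletion_eq_valuation' v (algebraMap (𝓞 K) K a - x)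
  change Valued.v ((algebraMap (𝓞 K) K a - x : K) : v.adicCompletion K) < 1
  rw [h4]
  simpa using ha

/-- the residue field -/
noncomputable def eps :
    (𝓞 K ⧸ v.asIdeal) ≃+* IsLocalRing.ResidueField (v.adicCompletionIntegers K) :=
  RingEquiv.ofBijective
    (Ideal.Quotient.lift v.asIdeal (red v) fun a ha => (red_eq_zero v a).2 ha)
    ⟨by
      rw [injective_iff_map_eq_zero]
      intro x
      obtain ⟨a, rfl⟩ := Ideal.Quotient.mk_surjective x
      rw [Ideal.Quotient.lift_mk, red_eq_zero]
      exact fun h => Ideal.Quotient.eq_zero_iff_mem.2 h,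
    by
      intro y
      obtain ⟨a, rfl⟩ := red_surjective v y
      exact ⟨Ideal.Quotient.mk _ a, Ideal.Quotient.lift_mk _ _ _⟩⟩

lemma map_red (g : (𝓞 K)[X]) :
    (g.map (algebraMap (𝓞 K) (v.adicCompletionIntegers K))).map (IsLocalRing.residue _) =
      (g.map (Ideal.Quotient.mk v.asIdeal)).map (eps v : (𝓞 K ⧸ v.asIdeal) →+* _) := by
  rw [Polynomial.map_map, Polynomial.map_map]
  rfl

lemma deg_red (g : (𝓞 K)[X]) :
    ((g.map (algebraMap (𝓞 K) (v.adicCompletionIntegers K))).map
      (IsLocalRing.residue _)).natDegree = (g.map (Ideal.Quotient.mk v.asIdeal)).natDegree := by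
  rw [map_red]
  exact natDegree_map_eq_of_injective
    (f := (eps v : (𝓞 K ⧸ v.asIdeal) →+* IsLocalRing.ResidueField (v.adicCompletionIntegers K)))
    (eps v).injective _

lemma irr_red (g : (𝓞 K)[X]) (hg : Irreducible (g.map (Ideal.Quotient.mk v.asIdeal))) :
    Irreducible ((g.map (algebraMap (𝓞 K) (v.adicCompletionIntegers K))).map
      (IsLocalRing.residue _)) := by
  rw [map_red]
  exact (MulEquiv.irreducible_iff (Polynomial.mapEquiv (eps v))).2 hg

end Pool.Agent.TH377.HB
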