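import Pool.Agent.TH377.Dyn.PN
import Mathlib.RingTheory.Polynomial.Resultant.Basic

/-!
# Anisotropic perturbations of sums of resultants
-/

set_option autoImplicit false
set_option maxHeartbeats 400000

namespace Pool.Agent.TH377.HB

open Polynomial Pool.Agent.TH377.Dyn

universe u v

variable {L : Type u} {Γ : Type v} [Field L] [LinearOrderedCommGroupWithZero Γ]
  (V : Valuation L Γ)

/-- the weight of a monomial -/
def wt {k s : ℕ} (α : Fin k × Fin s →₀ ℕ) : ℕ := ∑ p, (p.1 : ℕ) * α p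

lemma hom_sum {k s d : ℕ} {G : MvPolynomial (Fin k × Fin s) L} (hG : G.IsHomogeneous d)
    {α : Fin k × Fin s →₀ ℕ} (hα : α ∈ G.support) : ∑ p, α p = d := by
  have := hG (MvPolynomial.mem_support_iff.mp hα)
  rw [← this]
  have h3 := Finsupp.degree_eq_sum α
  rw [← h3, Finsupp.degree_eq_weight_one]
  rfl

/-- a perturbed sum of anisotropic forms has no zeros -/
theorem no_zero (k r d : ℕ) (hd : 1 ≤ d) (N : Fin k → (Fin (r + 1) → L) → L)
    (hN : ∀ j y, V (N j y) = big V y ^ d) (b : L) (hb0 : b ≠ 0) (hb : V b < 1)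
    (hpow : ∀ i, 0 < i → i < k → ∀ t : Γ, V b ^ i ≠ t ^ d)
    (G : MvPolynomial (Fin k × Fin (r + 1)) L) (hG : G.IsHomogeneous d)
    (hGc : ∀ α, V (G.coeff α) ≤ V b ^ (wt α / d + 1)) (x : Fin k × Fin (r + 1) → L)
    (hx : x ≠ 0) :
    ∑ j : Fin k, b ^ (j : ℕ) * N j (fun i => x (j, i)) + MvPolynomial.eval x G ≠ 0 := by
  classical
  have hVb : V b ≠ 0 := (Valuation.ne_zero_iff V).2 hb0
  have hVb0 : 0 < V b := zero_lt_iff.2 hVb
  set m : Fin k → Γ := fun j => big V fun i => x (j, i) with hm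
  have hxm : ∀ p : Fin k × Fin (r + 1), V (x p) ≤ m p.1 := by
    rintro ⟨j, i⟩
    exact le_big V (fun i => x (j, i)) i
  obtain ⟨p, hp⟩ : ∃ p, x p ≠ 0 := Function.ne_iff.1 hx
  set T : Fin k → Γ := fun j => V b ^ (j : ℕ) * m j ^ d with hT
  obtain ⟨j0, -, hj0⟩ := Finset.exists_max_image Finset.univ T ⟨p.1, Finset.mem_univ _⟩
  set M := T j0 with hM
  have hTp : 0 < T p.1 := by
    have h1 : 0 < V (x p) := zero_lt_iff.2 ((Valuation.ne_zero_iff V).2 hp)
    exact mul_pos (pow_pos hVb0 _) (pow_pos (h1.trans_le (hxm p)) _)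
  have hM0 : 0 < M := hTp.trans_le (hj0 p.1 (Finset.mem_univ _))
  have hterm : ∀ j : Fin k, V (b ^ (j : ℕ) * N j (fun i => x (j, i))) = T j := by
    intro j
    rw [map_mul, map_pow, hN]
  have hmne : ∀ j, T j = M → m j ≠ 0 := by
    intro j hj h0
    rw [hT] at hj
    simp only [h0, zero_pow (show d ≠ 0 by omega), mul_zero] at hj
    exact hM0.ne hj
  -- the largest term is unique
  have huniq : ∀ j, j ≠ j0 → T j < M := by
    intro j hj
    refine lt_of_le_of_ne (hj0 j (Finset.mem_univ _)) fun heq => ?_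
    have h1 := hmne j heq
    have h2 := hmne j0 rfl
    have h3 : V b ^ (j : ℕ) * m j ^ d = V b ^ (j0 : ℕ) * m j0 ^ d := heq
    rcases lt_or_gt_of_ne (fun h => hj (Fin.ext h) : (j : ℕ) ≠ j0) with h4 | h4
    · refine hpow (j0 - j) (by omega) (by have := j0.2; omega) (m j / m j0) ?_
      have h5 : V b ^ (j0 : ℕ) = V b ^ (j : ℕ) * V b ^ ((j0 : ℕ) - j) := by
        rw [← pow_add]
        congr 1
        omega
      rw [h5, mul_assoc] at h3
      have h6 := mul_left_cancel₀ (pow_ne_zero _ hVb) h3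
      rw [div_pow, h6, mul_div_assoc, div_self (pow_ne_zero _ h2), mul_one]
    · refine hpow (j - j0) (by omega) (by have := j.2; omega) (m j0 / m j) ?_
      have h5 : V b ^ (j : ℕ) = V b ^ (j0 : ℕ) * V b ^ ((j : ℕ) - j0) := by
        rw [← pow_add]
        congr 1
        omega
      rw [h5, mul_assoc] at h3
      have h6 := mul_left_cancel₀ (pow_ne_zero _ hVb) h3
      rw [div_pow, ← h6, mul_div_assoc, div_self (pow_ne_zero _ h1), mul_one]
  have hrest : V (∑ j ∈ Finset.univ.erase j0,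
      b ^ (j : ℕ) * N j (fun i => x (j, i))) < M := by
    refine Valuation.map_sum_lt V hM0.ne' fun j hj => ?_
    rw [hterm]
    exact huniq j (Finset.ne_of_mem_erase hj)
  -- the perturbation
  have hGM : V (MvPolynomial.eval x G) < M := by
    rw [MvPolynomial.eval_eq']
    refine Valuation.map_sum_lt V hM0.ne' fun α hα => ?_
    rw [map_mul, map_prod]
    set t := wt α / d + 1 with ht
    set P := ∏ p, m p.1 ^ α p with hP
    have h1 : V (G.coeff α) * ∏ p, V (x p ^ α p) ≤ V b ^ t * P := by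
      refine mul_le_mul' (hGc α) (Finset.prod_le_prod' fun p _ => ?_)
      rw [map_pow]
      exact pow_le_pow_left₀ zero_le (hxm p) _
    refine h1.trans_lt ?_
    have hw : wt α < t * d := by
      rw [ht, mul_comm]
      exact Nat.lt_mul_div_succ _ (by omega)
    have h2 : V b ^ wt α * P ^ d = ∏ p, T p.1 ^ α p := by
      rw [hP, wt, ← Finset.prod_pow, ← Finset.prod_pow_eq_pow_sum, ← Finset.prod_mul_distrib]
      refine Finset.prod_congr rfl fun p _ => ?_
      rw [hT]
      simp only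
      rw [mul_pow, ← pow_mul, ← pow_mul, ← pow_mul, mul_comm (α p) d]
    have h3 : V b ^ wt α * P ^ d ≤ M ^ d := by
      rw [h2, ← hom_sum hG hα, ← Finset.prod_pow_eq_pow_sum]
      refine Finset.prod_le_prod' fun p _ => ?_
      exact pow_le_pow_left₀ zero_le (hj0 p.1 (Finset.mem_univ _)) _
    have h4 : (V b ^ t * P) ^ d = V b ^ (t * d - wt α) * (V b ^ wt α * P ^ d) := by
      rw [mul_pow, ← pow_mul, ← mul_assoc, ← pow_add]
      congr 2
      omega
    refine lt_of_pow_lt_pow_left₀ d zero_le ?_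
    rw [h4]
    calc V b ^ (t * d - wt α) * (V b ^ wt α * P ^ d) ≤ V b ^ (t * d - wt α) * M ^ d :=
          mul_le_mul_right h3 _
      _ < 1 * M ^ d := mul_lt_mul_of_pos_right (pow_lt_one₀ zero_le hb (by omega)) (pow_pos hM0 _)
      _ = M ^ d := one_mul _
  intro h0
  rw [← Finset.add_sum_erase _ _ (Finset.mem_univ j0), add_assoc] at h0
  have h1 : V ((∑ j ∈ Finset.univ.erase j0, b ^ (j : ℕ) * N j (fun i => x (j, i))) +
      MvPolynomial.eval x G) < V (b ^ (j0 : ℕ) * N j0 (fun i => x (j0, i))) := by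
    rw [hterm]
    exact (Valuation.map_add V _ _).trans_lt (max_lt hrest hGM)
  have h2 := Valuation.map_add_eq_of_lt_left V h1
  rw [h0, map_zero, hterm] at h2
  exact hM0.ne h2

/-- the polynomial with given coefficients -/
noncomputable def pl {R : Type*} [Semiring R] {r : ℕ} (x : Fin (r + 1) → R) : R[X] :=
  ∑ i : Fin (r + 1), monomial (i : ℕ) (x i)

lemma pl_map {R S : Type*} [Semiring R] [Semiring S] (f : R →+* S) {r : ℕ}
    (x : Fin (r + 1) → R) : (pl x).map f = pl fun i => f (x i) := by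
  rw [pl, Polynomial.map_sum]
  refine Finset.sum_congr rfl fun i _ => ?_
  rw [Polynomial.map_monomial]

lemma pl_natDegree {R : Type*} [Semiring R] {r : ℕ} (x : Fin (r + 1) → R) :
    (pl x).natDegree ≤ r := by
  refine natDegree_sum_le_of_forall_le _ _ fun i _ => ?_
  refine (natDegree_monomial_le _).trans ?_
  have := i.2
  omega

lemma pl_coeff {R : Type*} [Semiring R] {r : ℕ} (x : Fin (r + 1) → R) (i : Fin (r + 1)) :
    (pl x).coeff i = x i := by
  rw [pl, finsetSum_coeff]
  simp only [coeff_monomial]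
  rw [Finset.sum_eq_single i]
  · simp
  · intro j _ hj
    rw [if_neg fun h => hj (Fin.ext h)]
  · intro h
    exact absurd (Finset.mem_univ _) h

lemma pl_smul {R : Type*} [CommSemiring R] {r : ℕ} (t : R) (x : Fin (r + 1) → R) :
    pl (t • x) = C t * pl x := by
  rw [pl, pl, Finset.mul_sum]
  refine Finset.sum_congr rfl fun i _ => ?_
  rw [C_mul_monomial, Pi.smul_apply, smul_eq_mul]

/-- the resultant as a form in the coefficients of the second polynomial -/
noncomputable def rs {R : Type*} [CommRing R] {r : ℕ} (g : R[X]) (d : ℕ) (x : Fin (r + 1) → R) :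
    R :=
  resultant g (pl x) d r

lemma rs_smul {R : Type*} [CommRing R] {r : ℕ} (g : R[X]) (d : ℕ) (t : R)
    (x : Fin (r + 1) → R) : rs g d (t • x) = t ^ d * rs g d x := by
  rw [rs, pl_smul, resultant_C_mul_right, rs]

lemma rs_map {R S : Type*} [CommRing R] [CommRing S] (f : R →+* S) {r : ℕ} (g : R[X]) (d : ℕ)
    (x : Fin (r + 1) → R) : f (rs g d x) = rs (g.map f) d fun i => f (x i) := by
  rw [rs, rs, ← pl_map, resultant_map_map]

/-- no common roots over a field -/
lemma rs_ne_zero {κ : Type*} [Field κ] {r : ℕ} (g : κ[X]) (d : ℕ) (hg : g.natDegree = d)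
    (hg0 : g ≠ 0) (hirr : ∀ h, Irreducible h → h ∣ g → r < h.natDegree) (x : Fin (r + 1) → κ)
    (hx : x ≠ 0) : rs g d x ≠ 0 := by
  classical
  intro h0
  have hpl : pl x ≠ 0 := by
    intro h
    apply hx
    funext i
    rw [← pl_coeff x i, h, coeff_zero]
    rfl
  have h1 : resultant g (pl x) ≠ 0 := by
    intro h
    rw [resultant_eq_zero_iff] at h
    obtain ⟨-, h⟩ := h
    apply h
    by_contra hc
    obtain ⟨p, hp, hp1, hp2⟩ : ∃ p, Irreducible p ∧ p ∣ g ∧ p ∣ pl x := by
      have h2 : ¬ IsUnit (EuclideanDomain.gcd g (pl x)) := fun h =>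
        hc (EuclideanDomain.gcd_isUnit_iff.1 h)
      have h3 : EuclideanDomain.gcd g (pl x) ≠ 0 := by
        intro h4
        exact hg0 (EuclideanDomain.gcd_eq_zero_iff.1 h4).1
      obtain ⟨p, hp, hpd⟩ := WfDvdMonoid.exists_irreducible_factor h2 h3
      exact ⟨p, hp, hpd.trans (EuclideanDomain.gcd_dvd_left _ _),
        hpd.trans (EuclideanDomain.gcd_dvd_right _ _)⟩
    have h4 := hirr p hp hp1
    have h5 := natDegree_le_of_dvd hp2 hpl
    have h6 := pl_natDegree x
    omega
  have h2 := resultant_add_right_deg g (pl x) g.natDegree (pl x).natDegree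
    (r - (pl x).natDegree) le_rfl
  have h3 : (pl x).natDegree + (r - (pl x).natDegree) = r := by
    have := pl_natDegree x
    omega
  rw [h3] at h2
  rw [rs, ← hg, h2] at h0
  rcases mul_eq_zero.1 h0 with h4 | h4
  · refine absurd h4 (pow_ne_zero _ ?_)
    rw [coeff_natDegree]
    exact leadingCoeff_ne_zero.2 hg0
  · exact h1 h4

end Pool.Agent.TH377.HB
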