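import Pool.Agent.TH377.HB.Place

/-!
# Hypersurfaces without points over extensions of a discretely valued field
-/

set_option autoImplicit false
set_option maxHeartbeats 400000
set_option linter.unusedSectionVars false

namespace Pool.Agent.TH377.HB

open Polynomial IsDedekindDomain Pool.Agent.TH377.Dyn

universe u v y

/-- the form -/
noncomputable def frm {R : Type*} [CommRing R] {k r : ℕ} (d : ℕ) (b : R) (g : Fin k → R[X])
    (G : MvPolynomial (Fin k × Fin (r + 1)) R) : MvPolynomial (Fin k × Fin (r + 1)) R :=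
  ∑ j : Fin k, MvPolynomial.C (b ^ (j : ℕ)) *
    rs ((g j).map MvPolynomial.C) d (fun i => MvPolynomial.X (j, i)) + G

lemma eval_frm {R S : Type*} [CommRing R] [CommRing S] {k r : ℕ} (d : ℕ) (b : R)
    (g : Fin k → R[X]) (G : MvPolynomial (Fin k × Fin (r + 1)) R) (f : R →+* S)
    (x : Fin k × Fin (r + 1) → S) :
    MvPolynomial.eval₂ f x (frm d b g G) =
      ∑ j : Fin k, f b ^ (j : ℕ) * rs ((g j).map f) d (fun i => x (j, i)) +
        MvPolynomial.eval₂ f x G := by
  change MvPolynomial.eval₂Hom f x _ = _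
  rw [frm, map_add, map_sum]
  congr 1
  refine Finset.sum_congr rfl fun j _ => ?_
  rw [map_mul, rs_map, Polynomial.map_map, MvPolynomial.eval₂Hom_C, map_pow]
  congr 2
  · congr 1
    ext a
    simp
  · funext i
    simp

section dvr

variable {A : Type u} {M : Type v} [CommRing A] [IsDomain A] [IsDiscreteValuationRing A]
  [Field M] [Algebra A M] [IsFractionRing A M]

variable (A M) in
/-- the valuation -/
noncomputable abbrev dval : Valuation M (WithZero (Multiplicative ℤ)) :=
  (IsDiscreteValuationRing.maximalIdeal A).valuation M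

lemma dval_unit (a : A) (ha : IsUnit a) : dval A M (algebraMap A M a) = 1 := by
  rw [HeightOneSpectrum.valuation_eq_one_iff_notMem]
  intro h
  exact (IsLocalRing.mem_maximalIdeal a).1 h ha

lemma dval_irr (ϖ : A) (hϖ : Irreducible ϖ) :
    dval A M (algebraMap A M ϖ) = WithZero.exp (-1 : ℤ) := by
  rw [HeightOneSpectrum.valuation_of_algebraMap]
  exact HeightOneSpectrum.intValuation_singleton _ hϖ.ne_zero hϖ.maximalIdeal_eq

/-- the value of the resultant -/
theorem rs_val {r : ℕ} (g : A[X]) (d : ℕ) (hd : 1 ≤ d)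
    (hg : (g.map (IsLocalRing.residue A)).natDegree = d)
    (hg0 : g.map (IsLocalRing.residue A) ≠ 0)
    (hirr : ∀ h, Irreducible h → h ∣ g.map (IsLocalRing.residue A) → r < h.natDegree)
    (y : Fin (r + 1) → M) :
    dval A M (rs (g.map (algebraMap A M)) d y) = big (dval A M) y ^ d := by
  obtain ⟨i, hi⟩ := exists_big (dval A M) y
  by_cases h0 : y i = 0
  · have hy : y = 0 := by
      funext j
      have h1 := le_big (dval A M) y j
      rw [hi, h0, map_zero] at h1
      exact (Valuation.zero_iff (dval A M)).1 (le_antisymm h1 zero_le)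
    have h1 : rs (g.map (algebraMap A M)) d y = 0 := by
      have h2 := rs_smul (g.map (algebraMap A M)) d (0 : M) y
      rw [zero_smul, zero_pow (by omega), zero_mul] at h2
      rw [hy]
      exact h2
    rw [h1, map_zero, hi, h0, map_zero, zero_pow (by omega)]
  · have hV0 : dval A M (y i) ≠ 0 := (Valuation.ne_zero_iff _).2 h0
    have hz : ∀ j, ∃ z : A, algebraMap A M z = (y i)⁻¹ * y j := by
      intro j
      refine IsDiscreteValuationRing.exists_lift_of_le_one ?_
      change dval A M _ ≤ 1
      rw [map_mul, map_inv₀]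
      have h1 := le_big (dval A M) y j
      rw [hi] at h1
      calc (dval A M (y i))⁻¹ * dval A M (y j) ≤ (dval A M (y i))⁻¹ * dval A M (y i) :=
            mul_le_mul_right h1 _
        _ = 1 := inv_mul_cancel₀ hV0
    choose z hz using hz
    have hzi : z i = 1 := by
      apply IsFractionRing.injective A M
      rw [hz, inv_mul_cancel₀ h0, map_one]
    have hunit : IsUnit (rs g d z) := by
      by_contra h
      have h1 : IsLocalRing.residue A (rs g d z) = 0 :=
        (IsLocalRing.residue_eq_zero_iff _).2 ((IsLocalRing.mem_maximalIdeal _).2 h)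
      rw [rs_map] at h1
      refine rs_ne_zero _ d hg hg0 hirr _ (fun h' => ?_) h1
      have h2 := congrFun h' i
      simp only [hzi, map_one] at h2
      exact one_ne_zero h2
    have hy2 : y = y i • fun j => algebraMap A M (z j) := by
      funext j
      rw [Pi.smul_apply, smul_eq_mul, hz, mul_inv_cancel_left₀ h0]
    have h3 : rs (g.map (algebraMap A M)) d (fun j => algebraMap A M (z j)) =
        algebraMap A M (rs g d z) := (rs_map _ _ _ _).symm
    have h4 : rs (g.map (algebraMap A M)) d y = y i ^ d * algebraMap A M (rs g d z) := by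
      conv_lhs => rw [hy2]
      rw [rs_smul, h3]
    rw [h4, map_mul, map_pow, dval_unit _ hunit, mul_one, hi]

/-- no points over the fraction field of a discrete valuation ring -/
theorem dvr_no_point (k r d : ℕ) (hd : 1 ≤ d) (b : A) (e : ℕ) (he : e ≠ 0) (ϖ t : A)
    (hϖ : Irreducible ϖ) (ht : IsUnit t) (hb : b = t * ϖ ^ e)
    (hpow : ∀ i, 0 < i → i < k → ¬ d ∣ i * e) (g : Fin k → A[X])
    (hg : ∀ j, ((g j).map (IsLocalRing.residue A)).natDegree = d)
    (hg0 : ∀ j, (g j).map (IsLocalRing.residue A) ≠ 0)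
    (hirr : ∀ j h, Irreducible h → h ∣ (g j).map (IsLocalRing.residue A) → r < h.natDegree)
    (G : MvPolynomial (Fin k × Fin (r + 1)) A) (hG : G.IsHomogeneous d)
    (hGc : ∀ α, b ^ (wt α / d + 1) ∣ G.coeff α) (x : Fin k × Fin (r + 1) → M) (hx : x ≠ 0) :
    MvPolynomial.eval₂ (algebraMap A M) x (frm d b g G) ≠ 0 := by
  have hVb : dval A M (algebraMap A M b) = WithZero.exp (-(e : ℤ)) := by
    rw [hb, map_mul, map_mul, dval_unit t ht, one_mul, map_pow, map_pow, dval_irr ϖ hϖ,
      ← WithZero.exp_nsmul]
    congr 1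
    simp
  have hb0 : b ≠ 0 := by
    rw [hb]
    exact mul_ne_zero ht.ne_zero (pow_ne_zero _ hϖ.ne_zero)
  have hbM : algebraMap A M b ≠ 0 := fun h =>
    hb0 ((map_eq_zero_iff _ (IsFractionRing.injective A M)).1 h)
  rw [eval_frm]
  have h1 : MvPolynomial.eval₂ (algebraMap A M) x G =
      MvPolynomial.eval x (MvPolynomial.map (algebraMap A M) G) := by
    rw [MvPolynomial.eval_map]
  rw [h1]
  refine no_zero (dval A M) k r d hd (fun j => rs ((g j).map (algebraMap A M)) d)
    (fun j y => rs_val (g j) d hd (hg j) (hg0 j) (hirr j) y) _ hbM ?_ ?_ _ (hG.map _) ?_ x hx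
  · rw [hVb, ← WithZero.exp_zero, WithZero.exp_lt_exp]
    omega
  · intro i hi hik t' heq
    refine hpow i hi hik ?_
    rw [hVb, ← WithZero.exp_nsmul] at heq
    have ht : t' ≠ 0 := by
      rintro rfl
      rw [zero_pow (by omega)] at heq
      exact WithZero.exp_ne_zero heq
    obtain ⟨s, rfl⟩ : ∃ s : ℤ, t' = WithZero.exp s :=
      ⟨WithZero.log t', (WithZero.exp_log ht).symm⟩
    rw [← WithZero.exp_nsmul, WithZero.exp_inj] at heq
    rw [← Int.natCast_dvd_natCast]
    refine ⟨-s, ?_⟩
    simp only [nsmul_eq_mul] at heq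
    push_cast at heq ⊢
    linarith
  · intro α
    rw [MvPolynomial.coeff_map]
    obtain ⟨c, hc⟩ := hGc α
    rw [hc, map_mul, map_mul, map_pow, map_pow]
    calc dval A M (algebraMap A M b) ^ (wt α / d + 1) * dval A M (algebraMap A M c)
        ≤ dval A M (algebraMap A M b) ^ (wt α / d + 1) * 1 :=
          mul_le_mul_right (HeightOneSpectrum.valuation_le_one _ c) _
      _ = _ := mul_one _

end dvr

/-- no points over small extensions of a discretely valued field -/
theorem no_point {R : Type u} {K : Type v} {M : Type y} [CommRing R] [IsDomain R]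
    [IsDiscreteValuationRing R] [Field K] [Algebra R K] [IsFractionRing R K] [CharZero K]
    [Field M] [Algebra K M] [FiniteDimensional K M]
    (k r d l : ℕ) (hd : 1 ≤ d) (hl : l.Prime)
    (hk : k * l ^ padicValNat l (Module.finrank K M) ≤ l ^ padicValNat l d)
    (hr : r * l ^ padicValNat l (Module.finrank K M) < l ^ padicValNat l d)
    (b : R) (hb : Irreducible b) (g : Fin k → R[X])
    (hg : ∀ j, (g j).natDegree = d)
    (hgd : ∀ j, ((g j).map (IsLocalRing.residue R)).natDegree = d)
    (hirr : ∀ j, Irreducible ((g j).map (IsLocalRing.residue R)))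
    (G : MvPolynomial (Fin k × Fin (r + 1)) R) (hG : G.IsHomogeneous d)
    (hGc : ∀ α, b ^ (wt α / d + 1) ∣ G.coeff α) (x : Fin k × Fin (r + 1) → M) (hx : x ≠ 0) :
    MvPolynomial.eval₂ ((algebraMap K M).comp (algebraMap R K)) x (frm d b g G) ≠ 0 := by
  have hfact : Fact l.Prime := ⟨hl⟩
  let _ : Algebra R M := ((algebraMap K M).comp (algebraMap R K)).toAlgebra
  have hst : IsScalarTower R K M := IsScalarTower.of_algebraMap_eq (fun _ => rfl)
  obtain ⟨e, fd, A, _, _, _, _, hfr, i, he, hfd, hef, hi, ⟨ϖ, t, hϖ, ht, hit⟩, hgi⟩ :=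
    dvr_place (k := K) (L := M) l hl b hb
  set n := Module.finrank K M with hn
  set a := padicValNat l n with ha
  have hlt : a ≤ padicValNat l d := by
    by_contra h1
    rw [not_le] at h1
    have h2 : l ^ padicValNat l d < l ^ a := Nat.pow_lt_pow_right hl.one_lt h1
    rcases Nat.eq_zero_or_pos k with h3 | h3
    · subst h3
      apply hx
      funext p
      exact p.1.elim0
    · have h4 := Nat.le_mul_of_pos_left (l ^ a) h3
      omega
  have hs : l ^ padicValNat l d = l ^ (padicValNat l d - a) * l ^ a := by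
    rw [← pow_add]
    congr 1
    omega
  have hla : 0 < l ^ a := pow_pos hl.pos _
  have hds : l ^ padicValNat l d ∣ d := pow_padicValNat_dvd
  have hk' : k ≤ l ^ (padicValNat l d - a) := by
    rw [hs] at hk
    exact Nat.le_of_mul_le_mul_right hk hla
  have hr' : r < l ^ (padicValNat l d - a) := by
    rw [hs] at hr
    exact Nat.lt_of_mul_lt_mul_right hr
  have h1 : MvPolynomial.eval₂ ((algebraMap K M).comp (algebraMap R K)) x (frm d b g G) =
      MvPolynomial.eval₂ (algebraMap A M) x
        (frm d (i b) (fun j => (g j).map i) (MvPolynomial.map i G)) := by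
    have hi' : (algebraMap K M).comp (algebraMap R K) = (algebraMap A M).comp i := hi.symm
    rw [eval_frm, eval_frm, hi', MvPolynomial.eval₂_map]
    congr 1
    refine Finset.sum_congr rfl fun j _ => ?_
    rw [Polynomial.map_map]
    rfl
  rw [h1]
  have hdeg : ∀ j, (((g j).map i).map (IsLocalRing.residue A)).natDegree = d := by
    intro j
    have hu : IsUnit ((g j).coeff d) := by
      by_contra h
      have h2 : ((g j).map (IsLocalRing.residue R)).leadingCoeff = 0 := by
        rw [leadingCoeff, hgd j, coeff_map]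
        exact (IsLocalRing.residue_eq_zero_iff _).2 ((IsLocalRing.mem_maximalIdeal _).2 h)
      exact (hirr j).ne_zero (leadingCoeff_eq_zero.1 h2)
    refine natDegree_eq_of_le_of_coeff_ne_zero ?_ ?_
    · exact natDegree_map_le.trans (natDegree_map_le.trans (hg j).le)
    · rw [coeff_map, coeff_map]
      exact ((hu.map i).map (IsLocalRing.residue A)).ne_zero
  refine dvr_no_point k r d hd (i b) e he ϖ t hϖ ht hit ?_ _ hdeg
    (fun j => (hgi (g j) (hirr j)).1) ?_ _ (hG.map _) ?_ x hx
  · intro m hm hmk h2
    have h3 : padicValNat l d ≤ padicValNat l m + padicValNat l e := by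
      rw [← padicValNat.mul hm.ne' he]
      exact (padicValNat_dvd_iff_le (mul_ne_zero hm.ne' he)).1 (hds.trans h2)
    have h5 : l ^ (padicValNat l d - a) ≤ m := by
      refine Nat.le_of_dvd hm ?_
      refine (padicValNat_dvd_iff_le hm.ne').2 ?_
      omega
    omega
  · intro j h hirrh hdvd
    have h2 := (hgi (g j) (hirr j)).2 h hirrh hdvd
    rw [hgd j] at h2
    have h0 : h.natDegree ≠ 0 := hirrh.natDegree_pos.ne'
    have h3 : padicValNat l d ≤ padicValNat l fd + padicValNat l h.natDegree := by
      rw [← padicValNat.mul hfd h0]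
      exact (padicValNat_dvd_iff_le (mul_ne_zero hfd h0)).1 (hds.trans h2)
    have h5 : l ^ (padicValNat l d - a) ≤ h.natDegree := by
      refine Nat.le_of_dvd (Nat.pos_of_ne_zero h0) ?_
      refine (padicValNat_dvd_iff_le h0).2 ?_
      omega
    omega
  · intro α
    rw [MvPolynomial.coeff_map, ← map_pow]
    exact map_dvd i (hGc α)

end Pool.Agent.TH377.HB
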