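import Pool.Agent.TH377.NC.Dvr
import Pool.Agent.TH377.HB.Loc

/-!
# Points over finite extensions of discretely valued fields
-/

set_option autoImplicit false
set_option maxHeartbeats 400000
set_option linter.unusedSectionVars false

namespace Pool.Agent.TH377.HB

open Polynomial IsDedekindDomain Pool.Agent.TH377.Dyn

universe u v y

/-- a place of `M` at which the ramification index and the residue degree are not divisible by
high powers of `l` -/
theorem dvr_place {R : Type u} {k : Type v} {L : Type y} [CommRing R] [IsDomain R]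
    [IsDiscreteValuationRing R] [Field k] [Algebra R k] [IsFractionRing R k] [CharZero k]
    [Field L] [Algebra k L] [FiniteDimensional k L] [Algebra R L] [IsScalarTower R k L]
    (l : ℕ) (hl : l.Prime) (ϖ0 : R) (hϖ0 : Irreducible ϖ0) :
    ∃ (e fd : ℕ) (A : Type y) (_ : CommRing A) (_ : IsDomain A)
      (_ : IsDiscreteValuationRing A) (_ : Algebra A L) (_ : IsFractionRing A L) (i : R →+* A),
      e ≠ 0 ∧ fd ≠ 0 ∧
      padicValNat l e + padicValNat l fd ≤ padicValNat l (Module.finrank k L) ∧
      (algebraMap A L).comp i = algebraMap R L ∧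
      (∃ (ϖ t : A), Irreducible ϖ ∧ IsUnit t ∧ i ϖ0 = t * ϖ ^ e) ∧
      ∀ g : R[X], Irreducible (g.map (IsLocalRing.residue R)) →
        (g.map i).map (IsLocalRing.residue A) ≠ 0 ∧
        ∀ h, Irreducible h → h ∣ (g.map i).map (IsLocalRing.residue A) →
          (g.map (IsLocalRing.residue R)).natDegree ∣ fd * h.natDegree := by
  classical
  have hfact : Fact l.Prime := ⟨hl⟩
  have hn0 : Module.finrank k L ≠ 0 := by
    have : 0 < Module.finrank k L := Module.finrank_pos
    exact this.ne'
  set a := padicValNat l (Module.finrank k L) with ha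
  -- the integral closure
  have hsep : Algebra.IsSeparable k L := inferInstance
  let S := integralClosure R L
  have hfr : IsFractionRing S L := integralClosure.isFractionRing_of_finite_extension k L
  have hded : IsDedekindDomain S := integralClosure.isDedekindDomain R k L
  have hfinS : Module.Finite R S := IsIntegralClosure.finite R k L S
  have hRL : Function.Injective (algebraMap R L) := by
    rw [IsScalarTower.algebraMap_eq R k L]
    exact (algebraMap k L).injective.comp (IsFractionRing.injective R k)
  have hRS : Function.Injective (algebraMap R S) := by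
    intro x y hxy
    apply hRL
    rw [IsScalarTower.algebraMap_apply R S L, hxy, ← IsScalarTower.algebraMap_apply R S L]
  have htf : Module.IsTorsionFree R S :=
    (Module.isTorsionFree_iff_algebraMap_injective (R := R) (A := S)).2 hRS
  have hflat : Module.Flat R S := inferInstance
  set p : Ideal R := IsLocalRing.maximalIdeal R with hp
  have hp0 : p ≠ ⊥ := IsDiscreteValuationRing.not_a_field R
  have hprime : p.IsPrime := inferInstance
  have hmaxp : p.IsMaximal := inferInstance
  have hrank : Module.finrank R S = Module.finrank k L := (IsFractionRing.finrank_eq R k S L).symm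
  have hft : Finite (p.primesOver S) := inferInstance
  let _ : Fintype (p.primesOver S) := Fintype.ofFinite _
  obtain ⟨q, hq⟩ : ∃ q : p.primesOver S,
      ¬ l ^ (a + 1) ∣ q.1.ramificationIdx R * q.1.inertiaDeg R := by
    by_contra h1
    rw [not_exists] at h1
    have h2 : l ^ (a + 1) ∣ Module.finrank k L := by
      rw [← hrank, ← Ideal.sum_ramification_inertia_eq_finrank p S]
      exact Finset.dvd_sum fun q _ => not_not.1 (h1 q)
    exact pow_succ_padicValNat_not_dvd hn0 h2
  set e := q.1.ramificationIdx R with he
  set fd := q.1.inertiaDeg R with hfd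
  have he0 : e ≠ 0 := by
    intro h0
    apply hq
    rw [h0, zero_mul]
    exact dvd_zero _
  have hf0 : fd ≠ 0 := by
    intro h0
    apply hq
    rw [h0, mul_zero]
    exact dvd_zero _
  have hef : padicValNat l e + padicValNat l fd ≤ a := by
    by_contra h1
    rw [not_le] at h1
    apply hq
    rw [padicValNat_dvd_iff_le (mul_ne_zero he0 hf0), padicValNat.mul he0 hf0]
    exact h1
  have hqp : q.1.IsPrime := q.2.1
  have hlies : q.1.LiesOver p := q.2.2
  have hq0 : q.1 ≠ ⊥ := by
    intro h
    apply hp0
    have h1 := hlies.over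
    rw [h] at h1
    rw [h1]
    exact Ideal.comap_bot_of_injective _ hRS
  have hqm : q.1.IsMaximal := Ideal.IsPrime.isMaximal hqp hq0
  obtain ⟨A, iA1, iA2, iA3, iA4, j, ε, hfrA, hjL, hjr, hbn⟩ :=
    Pool.Agent.TH377.NC.local_ringS (L := L) q.1 hqp hq0
  let _ : Field (R ⧸ p) := Ideal.Quotient.field _
  let _ : Field (S ⧸ q.1) := Ideal.Quotient.field _
  have hfinq : FiniteDimensional (R ⧸ p) (S ⧸ q.1) := inferInstance
  set ι : (R ⧸ p) →+* (S ⧸ q.1) := algebraMap (R ⧸ p) (S ⧸ q.1) with hι
  have hmap : ∀ g : R[X], (g.map (j.comp (algebraMap R S))).map (IsLocalRing.residue A) =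
      ((g.map (Ideal.Quotient.mk p)).map ι).map
        (ε : (S ⧸ q.1) →+* IsLocalRing.ResidueField A) := by
    intro g
    rw [Polynomial.map_map, Polynomial.map_map, Polynomial.map_map, ← RingHom.comp_assoc]
    congr 1
    rw [hjr]
    rfl
  have hfdeq : fd = Module.finrank (R ⧸ p) (S ⧸ q.1) := Ideal.inertiaDeg_eq_of_isMaximal p q.1
  refine ⟨e, fd, A, iA1, iA2, iA3, iA4, hfrA, j.comp (algebraMap R S), he0, hf0, hef, ?_, ?_, ?_⟩
  · rw [← RingHom.comp_assoc, hjL, ← IsScalarTower.algebraMap_eq R S L]
  · have hϖS : algebraMap R S ϖ0 ≠ 0 := by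
      intro h
      exact hϖ0.ne_zero (hRS (by rw [h, map_zero]))
    obtain ⟨ϖ, t, n, hϖ, ht, hb2, hb3⟩ := hbn (algebraMap R S ϖ0) hϖS
    have hspan : p = Ideal.span {ϖ0} := hϖ0.maximalIdeal_eq
    have hmp : p.map (algebraMap R S) = Ideal.span {algebraMap R S ϖ0} := by
      rw [hspan, Ideal.map_span, Set.image_singleton]
    have hmapp : ∀ i, p.map (algebraMap R S) ≤ q.1 ^ i ↔ i ≤ n := by
      intro i
      rw [← hb3, hmp, Ideal.span_singleton_le_iff_mem]
    have hen : e = n := by
      have h1 : p.ramificationIdx' q.1 = n :=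
        Ideal.ramificationIdx'_spec ((hmapp n).2 le_rfl) (fun h => by
          have := (hmapp (n + 1)).1 h
          omega)
      have h2 : p.ramificationIdx' q.1 = q.1.ramificationIdx R :=
        Ideal.ramificationIdx'_eq_ramificationIdx _ _ hp0
      rw [he, ← h2, h1]
    refine ⟨ϖ, t, hϖ, ht, ?_⟩
    apply IsFractionRing.injective A L
    rw [map_mul, map_pow, hen, ← hb2, ← hjL]
    rfl
  · intro g hg
    have hg1 : Irreducible (g.map (Ideal.Quotient.mk p)) := hg
    rw [hmap g]
    refine ⟨?_, ?_⟩
    · rw [Polynomial.map_ne_zero_iff (RingHom.injective _),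
        Polynomial.map_ne_zero_iff (RingHom.injective _)]
      exact hg1.ne_zero
    · intro h hirr hdvd
      have h1 : Irreducible (h.map (ε.symm : IsLocalRing.ResidueField A →+* (S ⧸ q.1))) :=
        (MulEquiv.irreducible_iff (Polynomial.mapEquiv ε.symm)).2 hirr
      have h2 : h.map (ε.symm : IsLocalRing.ResidueField A →+* (S ⧸ q.1)) ∣
          (g.map (Ideal.Quotient.mk p)).map ι := by
        have h3 := Polynomial.map_dvd (ε.symm : IsLocalRing.ResidueField A →+* (S ⧸ q.1)) hdvd
        rw [Polynomial.map_map (ε : (S ⧸ q.1) →+* IsLocalRing.ResidueField A)] at h3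
        have h4 : (ε.symm : IsLocalRing.ResidueField A →+* (S ⧸ q.1)).comp
            (ε : (S ⧸ q.1) →+* IsLocalRing.ResidueField A) = RingHom.id _ := by
          ext z
          simp
        rwa [h4, Polynomial.map_id] at h3
      have h3 := Pool.Agent.TH377.NC.factor_ext (g.map (Ideal.Quotient.mk p))
        (g.map (Ideal.Quotient.mk p)).natDegree ?_ _ h1 h2
      · have h6 : (h.map (ε.symm : IsLocalRing.ResidueField A →+* (S ⧸ q.1))).natDegree =
            h.natDegree := natDegree_map _
        rw [h6, ← hfdeq] at h3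
        exact h3
      · intro h' hirr' hdvd'
        have h5 := (hirr'.associated_of_dvd hg1 hdvd')
        rw [natDegree_eq_of_degree_eq (degree_eq_degree_of_associated h5)]

end Pool.Agent.TH377.HB
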